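import Mathlib
import Pool.Agent.K1H95.HL.Finish

set_option autoImplicit false

/-!
# The Hall–Lang conjecture with absolute exponents for sparse integral points

All elliptic curves `y ^ 2 = x ^ 3 + A x + B`, `A`, `B` integers, `H = max |A| |B|`.

If `q x` and `q y` are combinations of the same `r` powers of some integer `b ≥ 2`, with integral
coefficients of absolute value at most `W` and `1 ≤ q ≤ W`, then
`|x| ≤ (2 W) ^ C H ^ (22 + ε)` and `|y| ≤ (2 W) ^ C H ^ (33 + ε)` with `C = C(r, ε)`: the constant does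
not depend on the base `b`, and the exponent of `H` does not depend on the number `r` of terms.

Proof: a Picard–Fuchs argument gives `deg x ≤ 22 max (deg A) (deg B)` for polynomial points over
`ℚ[t]`; a sparse point is, after a simultaneous approximation of its exponents, the value at a large
power `T` of `b` of a polynomial point (with polynomial `A`, `B`) whose coefficients are small in
terms of `T`.
-/

open Pool.Agent.K1H95.HL

namespace Pool.Agent.Results.MP_a1107e_nt.AbsoluteExponentSparse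

/-- **The Hall–Lang conjecture with absolute exponents for sparse points** -/
theorem result (r : ℕ) (ε : ℝ) (hε : 0 < ε) : ∃ C : ℕ, ∀ b W q : ℕ, 2 ≤ b → 1 ≤ q → q ≤ W →
    ∀ n c d : Fin r → ℤ, (∀ j, |c j| ≤ W) → (∀ j, |d j| ≤ W) →
    ∀ A B x y : ℤ, 4 * A ^ 3 + 27 * B ^ 2 ≠ 0 → y ^ 2 = x ^ 3 + A * x + B →
    (q : ℚ) * x = ∑ j, (c j : ℚ) * (b : ℚ) ^ n j → (q : ℚ) * y = ∑ j, (d j : ℚ) * (b : ℚ) ^ n j →
    |(x : ℝ)| ≤ (2 * (W : ℝ)) ^ C * (max |(A : ℝ)| |(B : ℝ)|) ^ (22 + ε) ∧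
    |(y : ℝ)| ≤ (2 * (W : ℝ)) ^ C * (max |(A : ℝ)| |(B : ℝ)|) ^ (33 + ε) := by
  obtain ⟨C0, hC0⟩ := sparse_both r (ε / 2) (by positivity)
  set C1 := (r + 2) * C0 with hC1
  refine ⟨2 * C1 + 1, ?_⟩
  intro b W q hb hq hqW n c d hc hd A B x y hΔ hcur hx hy
  have hW1 : 1 ≤ W := hq.trans hqW
  have hWR : (1 : ℝ) ≤ W := by exact_mod_cast hW1
  have h2W : (1 : ℝ) ≤ 2 * (W : ℝ) := by linarith
  obtain ⟨f, hf, hfc, hfW⟩ := family b r W c n hc
  obtain ⟨g, hg, hgc, hgW⟩ := family b r W d n hd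
  have hH1 := height_one A B hΔ
  set Hm : ℝ := max |(A : ℝ)| |(B : ℝ)| with hHm
  have hrW : r * W ≤ (r + 1) * W := Nat.mul_le_mul_right _ (by omega)
  have hWr : W ≤ (r + 1) * W := Nat.le_mul_of_pos_left _ (by omega)
  have h1 := hC0 b ((r + 1) * W) q f g x y A B hb (hW1.trans hWr) (by exact_mod_cast hq)
    (by exact_mod_cast hqW.trans hWr) hfc hgc
    (fun m => (hfW m).trans (by exact_mod_cast hrW))
    (fun m => (hgW m).trans (by exact_mod_cast hrW))
    (by rw [hf, ← hx]; push_cast; rfl) (by rw [hg, ← hy]; push_cast; rfl) hcur hΔ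
  have h2 : (2 * (((r + 1) * W : ℕ) : ℝ)) ^ C0 ≤ (2 * (W : ℝ)) ^ C1 := by
    rw [hC1, pow_mul]
    refine pow_le_pow_left₀ (by positivity) ?_ _
    have h3 : 2 * ((r + 1) * W) ≤ (2 * W) ^ (r + 2) := by
      have h4 : r + 1 ≤ 2 ^ (r + 1) := (Nat.lt_two_pow_self).le
      calc 2 * ((r + 1) * W) ≤ 2 * (2 ^ (r + 1) * W) := by gcongr
        _ = 2 ^ (r + 2) * W := by ring
        _ ≤ 2 ^ (r + 2) * W ^ (r + 2) := by gcongr; exact Nat.le_self_pow (by omega) W
        _ = (2 * W) ^ (r + 2) := by rw [mul_pow]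
    exact_mod_cast h3
  have hK1 : (1 : ℝ) ≤ (2 * (W : ℝ)) ^ C1 := one_le_pow₀ h2W
  have h5 : |(x : ℝ)| ≤ (2 * (W : ℝ)) ^ C1 * Hm ^ (22 + ε / 2) :=
    h1.trans (mul_le_mul_of_nonneg_right h2 (by positivity))
  have h6 := ordinate A B x y ε ((2 * (W : ℝ)) ^ C1) hε hK1 hΔ hcur h5
  rw [← hHm] at h6
  constructor
  · refine h5.trans (mul_le_mul (pow_le_pow_right₀ h2W (by omega))
      (Real.rpow_le_rpow_of_exponent_le hH1 (by linarith)) (by positivity) (by positivity))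
  · refine h6.trans (mul_le_mul_of_nonneg_right ?_ (by positivity))
    calc 2 * ((2 * (W : ℝ)) ^ C1) ^ 2 ≤ (2 * (W : ℝ)) * ((2 * (W : ℝ)) ^ C1) ^ 2 :=
          mul_le_mul_of_nonneg_right (by linarith) (by positivity)
      _ = (2 * (W : ℝ)) ^ (2 * C1 + 1) := by ring

end Pool.Agent.Results.MP_a1107e_nt.AbsoluteExponentSparse
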