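import Pool.Agent.K1H89.HL.E2
import Pool.Agent.W257.HL.RED2
import Pool.Agent.W395.HL.Lin
import Pool.Agent.W864.HL.Quad

/-!
# The Hall–Lang conjecture with explicit constants and halves in totally split families of fields

Let `P ∈ ℤ[T][Y]` have `m = deg_Y P` distinct zeros in the field `ℚ((1/T))` of Laurent series, and
let `K_a` be the field generated over `ℚ` by the real zeros of `P(a, Y)`.  If `|a|` is large in
terms of `P`, then every integral point `(x, y)` of every elliptic curve `y ^ 2 = x ^ 3 + A x + B`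
satisfies `max |x| |y| ≤ (|a| max |A| |B|) ^ C`, `C = C(m, deg_T P)`, unless it has a real half
`(X, Y)` for which `ℚ(X, Y) ∩ K_a` has degree at most two.

Tools of the starting library which are used: reduction of the quartic of the halves and the
reducible quartics (`Pool.Agent.W257.HL`, `W395.HL`, `W554.HL`, `W864.HL`, made for the starting
hand-in `HalvesInFixedField`, which has a non-explicit constant `c(K)` for a fixed field `K`);
approximation systems from one anchor (`Pool.Agent.Y910`, `Pool.Agent.W257`, `Pool.Agent.H322R2`).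
New here: `Pool.Agent.K1H89.TS.*` (the fields `K_a` carry an explicit weighted anchor, made of the
branches of `P = 0` at `T = ∞`) and its combination with the quartic form of the halves
(`Pool.Agent.K1H89.HL.*`).
-/

set_option autoImplicit false

open IntermediateField

namespace Pool.Agent.Results.MP_a1107e_nt.ExplicitHalves

/-- The sum of the absolute values of all coefficients of `P(T, Y) ∈ ℤ[T][Y]`. -/
noncomputable def len₂ (P : Polynomial (Polynomial ℤ)) : ℕ :=
  ∑ j ∈ P.support, ∑ i ∈ (P.coeff j).support, ((P.coeff j).coeff i).natAbs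

/-- The embedding of `ℤ[T]` into the field `ℚ((1/T))` of Laurent series in `1/T` (the variable of
`LaurentSeries ℚ` stands for `1/T`, so `T` is sent to its inverse). -/
noncomputable def toSeries : Polynomial ℤ →+* LaurentSeries ℚ :=
  Polynomial.eval₂RingHom (Int.castRingHom _) (HahnSeries.single (-1 : ℤ) (1 : ℚ))

/-- `P(T, Y)` is totally split at infinity: it has `deg_Y P` distinct zeros in `ℚ((1/T))`. -/
def TotallySplit (P : Polynomial (Polynomial ℤ)) : Prop :=
  ∃ φ : Fin P.natDegree → LaurentSeries ℚ, Function.Injective φ ∧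
    ∀ i, (P.map toSeries).eval (φ i) = 0

/-- The field generated over `ℚ` by all real zeros `β` of `P(a, Y)`. -/
noncomputable def rootField (P : Polynomial (Polynomial ℤ)) (a : ℤ) : IntermediateField ℚ ℝ :=
  IntermediateField.adjoin ℚ {β : ℝ | Polynomial.aeval β (P.map (Polynomial.evalRingHom a)) = 0}

lemma len₂_cast (P : Polynomial (Polynomial ℤ)) :
    ((len₂ P : ℕ) : ℝ) = Pool.Agent.H322R2.pn (Pool.Agent.H322R2.pn Pool.Agent.H322R2.zn) P := by
  rw [len₂, Pool.Agent.H322R2.pn_apply]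
  push_cast
  apply Finset.sum_congr rfl
  intro j _
  rw [Pool.Agent.H322R2.pn_apply]
  apply Finset.sum_congr rfl
  intro i _
  rw [Pool.Agent.H322R2.zn_apply, Nat.cast_natAbs, Int.cast_abs]

lemma toSeries_eq :
    Pool.Agent.H322R2.evf ((algebraMap (PowerSeries ℚ) (LaurentSeries ℚ) PowerSeries.X)⁻¹)
      = toSeries := by
  rw [LaurentSeries.coe_algebraMap, HahnSeries.ofPowerSeries_X, HahnSeries.inv_single, inv_one]
  rfl

lemma len₂_pos {P : Polynomial (Polynomial ℤ)} (hP : P ≠ 0) : 1 ≤ len₂ P := by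
  have h1 : P.natDegree ∈ P.support := Polynomial.natDegree_mem_support_of_nonzero hP
  have h2 : P.leadingCoeff ≠ 0 := Polynomial.leadingCoeff_ne_zero.2 hP
  have h3 : P.leadingCoeff.natDegree ∈ P.leadingCoeff.support :=
    Polynomial.natDegree_mem_support_of_nonzero h2
  have h4 : 1 ≤ (P.leadingCoeff.coeff P.leadingCoeff.natDegree).natAbs := by
    have : P.leadingCoeff.coeff P.leadingCoeff.natDegree ≠ 0 :=
      Polynomial.leadingCoeff_ne_zero.2 h2
    omega
  calc 1 ≤ (P.leadingCoeff.coeff P.leadingCoeff.natDegree).natAbs := h4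
    _ ≤ ∑ i ∈ (P.coeff P.natDegree).support, ((P.coeff P.natDegree).coeff i).natAbs :=
        Finset.single_le_sum (f := fun i => ((P.coeff P.natDegree).coeff i).natAbs)
          (fun _ _ => Nat.zero_le _) h3
    _ ≤ len₂ P := Finset.single_le_sum
        (f := fun j => ∑ i ∈ (P.coeff j).support, ((P.coeff j).coeff i).natAbs)
        (fun _ _ => Nat.zero_le _) h1

/-- from the halves of the point to the roots of the quartic -/
lemma halves (K : IntermediateField ℚ ℝ) {A B x y : ℤ} (hD : 4 * A ^ 3 + 27 * B ^ 2 ≠ 0)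
    (hE : y ^ 2 = x ^ 3 + A * x + B)
    (h : ∀ X Y l : ℝ, Y ^ 2 = X ^ 3 + A * X + B → 2 * Y * l = 3 * X ^ 2 + A →
      l ^ 2 - 2 * X = x → l * (X - x) - Y = y →
      2 < Module.finrank ℚ ↥(IntermediateField.adjoin ℚ {X, Y} ⊓ K)) :
    ∀ l : ℝ, l ^ 4 - 6 * x * l ^ 2 + 8 * y * l - (3 * x ^ 2 + 4 * A) = 0 →
      3 ≤ Module.finrank ℚ ↥(ℚ⟮l⟯ ⊓ K) := by
  intro l hl
  have hER : (y : ℝ) ^ 2 = x ^ 3 + A * x + B := by exact_mod_cast hE
  obtain ⟨X, hX⟩ : ∃ X : ℝ, X = (l ^ 2 - x) / 2 := ⟨_, rfl⟩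
  obtain ⟨Y, hY⟩ : ∃ Y : ℝ, Y = -l * (X - x) - y := ⟨_, rfl⟩
  have e1 : Y ^ 2 = X ^ 3 + A * X + B := by
    rw [hY, hX]
    linear_combination (((l ^ 2 - x) / 2 - x) / 4) * hl + hER
  have e2 : 2 * Y * (-l) = 3 * X ^ 2 + A := by
    rw [hY, hX]
    linear_combination (1 / 4) * hl
  have e3 : (-l) ^ 2 - 2 * X = x := by
    rw [hX]
    ring
  have e4 : (-l) * (X - x) - Y = y := by
    rw [hY]
    ring
  have hY0 : Y ≠ 0 := by
    intro h0
    rw [h0] at e1 e2
    apply hD
    have hA : (A : ℝ) = -3 * X ^ 2 := by linear_combination -e2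
    have hB : (B : ℝ) = 2 * X ^ 3 := by
      rw [hA] at e1
      linear_combination -e1
    have h5 : (4 * (A : ℝ) ^ 3 + 27 * (B : ℝ) ^ 2) = 0 := by
      rw [hA, hB]
      ring
    exact_mod_cast h5
  have hfield : IntermediateField.adjoin ℚ {X, Y} = ℚ⟮l⟯ := by
    apply le_antisymm
    · have hl2 := mem_adjoin_simple_self ℚ l
      have h2 : (2 : ℝ) ∈ ℚ⟮l⟯ := by exact_mod_cast intCast_mem ℚ⟮l⟯ 2
      have k1 : X ∈ ℚ⟮l⟯ := by
        rw [hX]
        exact (ℚ⟮l⟯).div_mem ((ℚ⟮l⟯).sub_mem (pow_mem hl2 2) (intCast_mem _ x)) h2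
      have k2 : Y ∈ ℚ⟮l⟯ := by
        rw [hY]
        exact (ℚ⟮l⟯).sub_mem ((ℚ⟮l⟯).mul_mem ((ℚ⟮l⟯).neg_mem hl2)
          ((ℚ⟮l⟯).sub_mem k1 (intCast_mem _ x))) (intCast_mem _ y)
      rw [IntermediateField.adjoin_le_iff]
      intro z hz
      rcases hz with rfl | hz
      · exact k1
      · rw [Set.mem_singleton_iff.1 hz]
        exact k2
    · obtain ⟨F, hF⟩ : ∃ F, F = IntermediateField.adjoin ℚ {X, Y} := ⟨_, rfl⟩
      have k1 : X ∈ F := by
        rw [hF]
        exact IntermediateField.subset_adjoin ℚ _ (Set.mem_insert _ _)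
      have k2 : Y ∈ F := by
        rw [hF]
        exact IntermediateField.subset_adjoin ℚ _ (Set.mem_insert_of_mem _ rfl)
      rw [← hF, adjoin_simple_le_iff]
      have h6 : l = -((3 * X ^ 2 + A) / (2 * Y)) := by
        rw [← e2]
        field_simp
      rw [h6]
      have h3 : (3 : ℝ) ∈ F := by exact_mod_cast intCast_mem F 3
      have h2 : (2 : ℝ) ∈ F := by exact_mod_cast intCast_mem F 2
      exact F.neg_mem (F.div_mem (F.add_mem (F.mul_mem h3 (pow_mem k1 2)) (intCast_mem F A))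
        (F.mul_mem h2 k2))
  rw [← hfield]
  exact h X Y (-l) e1 e2 e3 e4

/-- **Hall–Lang with explicit constants, halves in totally split families of fields.**  Let
`P(T, Y) ∈ ℤ[T, Y]` have degree `m ≥ 1` in `Y`, degree at most `k` in `T`, and `m` distinct zeros in
`ℚ((1/T))`.  If `|a| ≥ (2 len P)^C`, `C = C(m, k)`, then every integral point `(x, y)` of every curve
`y ^ 2 = x ^ 3 + A x + B` (`A`, `B` integers, nonsingular) satisfies
`max |x| |y| ≤ (|a| max |A| |B|)^C`, unless there is a real half `(X, Y)` of `(x, y)` (a real point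
with `2 (X, Y) = (x, y)`; `l` is the slope of the tangent at `(X, Y)`) such that the field `ℚ(X, Y)`
meets the field generated by the real zeros of `P(a, Y)` in degree at most two. -/
theorem result :
    ∃ C : ℕ → ℕ → ℕ, ∀ (m k : ℕ) (P : Polynomial (Polynomial ℤ)) (a : ℤ),
      1 ≤ m → P.natDegree = m → (∀ j, (P.coeff j).natDegree ≤ k) → TotallySplit P →
      (2 * len₂ P) ^ C m k ≤ a.natAbs →
      ∀ A B x y : ℤ, 4 * A ^ 3 + 27 * B ^ 2 ≠ 0 → y ^ 2 = x ^ 3 + A * x + B →
        max x.natAbs y.natAbs ≤ (a.natAbs * max A.natAbs B.natAbs) ^ C m k ∨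
        ∃ X Y l : ℝ, Y ^ 2 = X ^ 3 + A * X + B ∧ 2 * Y * l = 3 * X ^ 2 + A ∧
          l ^ 2 - 2 * X = x ∧ l * (X - x) - Y = y ∧
          Module.finrank ℚ ↥(IntermediateField.adjoin ℚ {X, Y} ⊓ rootField P a) ≤ 2 := by
  choose K D hK1 hD2 hK using fun m k =>
    Pool.Agent.K1H89.HL.xy_case Pool.Agent.W257.HL.t_RED2 Pool.Agent.W395.HL.lin
      Pool.Agent.W864.HL.quad m.factorial (Pool.Agent.K1H89.TS.eA (m * k + 1) m) (m * k + 1)
  have hC0 : ∀ m k : ℕ, ∃ C0 : ℕ, 1 ≤ C0 ∧ (1 ≤ m → ∀ (f : Polynomial (Polynomial ℤ)) (h : ℝ)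
      (a : ℤ) (K : ℕ), f.natDegree = m → (∀ j, (f.coeff j).natDegree ≤ k) → TotallySplit f →
      2 ≤ h → Pool.Agent.H322R2.pn (Pool.Agent.H322R2.pn Pool.Agent.H322R2.zn) f ≤ h →
      h ^ (C0 * (K + 2)) ≤ |(a : ℝ)| →
      ∃ B : ℝ, Pool.Agent.K1H89.TS.AncW m.factorial (Pool.Agent.K1H89.TS.eA (m * k + 1) m)
        (m * k + 1) B |(a : ℝ)| (rootField f a) ∧ B ^ K ≤ |(a : ℝ)|) := by
    intro m k
    by_cases hm : 1 ≤ m
    · obtain ⟨C0, h1, h2⟩ := Pool.Agent.K1H89.TS.ts_anchor_gen m k hm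
      refine ⟨C0, h1, ?_⟩
      intro _ f h a K hfd hk hsp hh hfh ha
      subst hfd
      obtain ⟨φ, hinj, hφ⟩ := hsp
      exact h2 (LaurentSeries ℚ) f φ h a K rfl hk (by rw [toSeries_eq]; exact hφ) hinj hh hfh ha
    · exact ⟨1, le_refl _, fun h => absurd h hm⟩
  choose C0 hC01 hC0' using hC0
  refine ⟨fun m k => C0 m k * (K m k + 2) + D m k, ?_⟩
  intro m k P a hm hPd hk hsp ha A B x y hdisc hcur
  have hP0 : P ≠ 0 := by
    rintro rfl
    rw [Polynomial.natDegree_zero] at hPd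
    omega
  have hl1 := len₂_pos hP0
  have hlen : (1 : ℝ) ≤ (len₂ P : ℝ) := by exact_mod_cast hl1
  have haR : (2 * (len₂ P : ℝ)) ^ (C0 m k * (K m k + 2)) ≤ |(a : ℝ)| := by
    have h1 : ((a.natAbs : ℕ) : ℝ) = |(a : ℝ)| := by rw [Nat.cast_natAbs, Int.cast_abs]
    rw [← h1]
    have h2 : (2 * len₂ P) ^ (C0 m k * (K m k + 2)) ≤ a.natAbs :=
      (Nat.pow_le_pow_right (by omega) (Nat.le_add_right _ _)).trans ha
    exact_mod_cast h2
  obtain ⟨B', hanc, hBa⟩ := hC0' m k hm P (2 * (len₂ P : ℝ)) a (K m k) hPd hk hsp (by linarith)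
    (by rw [← len₂_cast]; linarith) haR
  have h1 : |(a : ℝ)| = ((a.natAbs : ℕ) : ℝ) := by rw [Nat.cast_natAbs, Int.cast_abs]
  rw [h1] at hanc hBa
  by_cases hcon : ∀ X Y l : ℝ, Y ^ 2 = X ^ 3 + A * X + B → 2 * Y * l = 3 * X ^ 2 + A →
      l ^ 2 - 2 * X = x → l * (X - x) - Y = y →
      2 < Module.finrank ℚ ↥(IntermediateField.adjoin ℚ {X, Y} ⊓ rootField P a)
  · left
    have h2 := hK m k hanc hBa A B x y hdisc hcur (halves (rootField P a) hdisc hcur hcon)
    have ha1 : 1 ≤ a.natAbs := by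
      refine le_trans ?_ ha
      exact Nat.one_le_pow _ _ (Nat.mul_pos (by norm_num) hl1)
    have hH1 := Pool.Agent.W257.HL.H_pos hdisc
    exact h2.trans (Nat.pow_le_pow_right (Nat.mul_pos ha1 hH1) (Nat.le_add_left _ _))
  · right
    push Not at hcon
    obtain ⟨X, Y, l, h2, h3, h4, h5, h6⟩ := hcon
    exact ⟨X, Y, l, h2, h3, h4, h5, h6⟩

end Pool.Agent.Results.MP_a1107e_nt.ExplicitHalves
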