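import Mathlib
import Pool.Agent.K1H95.HL.HallY

set_option autoImplicit false

/-!
# The Hall–Lang conjecture with absolute exponents for points with one sparse coordinate

All elliptic curves `y ^ 2 = x ^ 3 + A x + B`, `A`, `B` integers, `H = max |A| |B|`.

Let `b ≥ 2`, `k`, `W`, `Q`, `η > 0` and `ε > 0` be given.  There is a constant `K` such that
`|x| ≤ K H ^ (22 + ε)` and `|y| ≤ K H ^ (33 + ε)` for all integral points of all these curves for
which `q x` or `q y`, for some `1 ≤ q ≤ Q`, is a sum `a₀ b ^ n₀ + ⋯ + a_k b ^ n_k` with integers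
`|a_i| ≤ W`, `a₀ ≠ 0` and `n_i ≤ (1 - η) n₀` for `i ≥ 1`.

Proof: by the subspace theorem the other coordinate of such a point with large `x` is, up to a small
denominator, a sum of boundedly many powers of `b` with small coefficients, and the theorem of
`AbsoluteExponentSparse` applies.
-/

open Pool.Agent.K1H95.HL

namespace Pool.Agent.Results.MP_a1107e_nt.OneSparseCoordinate

/-- **The Hall–Lang conjecture with absolute exponents for points with one sparse coordinate** -/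
theorem result (b k W Q : ℕ) (hb : 2 ≤ b) (η ε : ℝ) (hη : 0 < η) (hε : 0 < ε) :
    ∃ K : ℝ, ∀ A B x y : ℤ, 4 * A ^ 3 + 27 * B ^ 2 ≠ 0 → y ^ 2 = x ^ 3 + A * x + B →
    ∀ (q : ℕ) (a : Fin (k + 1) → ℤ) (n : Fin (k + 1) → ℕ), 1 ≤ q → q ≤ Q →
    (∀ i, |a i| ≤ W) → a 0 ≠ 0 → (∀ i, i ≠ 0 → (n i : ℝ) ≤ (1 - η) * n 0) →
    ((q : ℤ) * x = ∑ i, a i * (b : ℤ) ^ n i ∨ (q : ℤ) * y = ∑ i, a i * (b : ℤ) ^ n i) →
    |(x : ℝ)| ≤ K * (max |(A : ℝ)| |(B : ℝ)|) ^ (22 + ε) ∧
    |(y : ℝ)| ≤ K * (max |(A : ℝ)| |(B : ℝ)|) ^ (33 + ε) := by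
  have hη' : 0 < min η 1 := lt_min hη one_pos
  obtain ⟨K1, h1⟩ := hall_x b hb k W Q (min η 1) (ε / 2) hη' (min_le_right _ _) (by positivity)
  obtain ⟨K2, h2⟩ := hall_y b hb k W Q (min η 1) (ε / 2) hη' (min_le_right _ _) (by positivity)
  set K := max 1 (max K1 K2) with hK
  have hK1 : 1 ≤ K := le_max_left _ _
  refine ⟨2 * K ^ 2, ?_⟩
  intro A B x y hΔ hcur q a n hq hqQ ha ha0 hgap hor
  have hH1 := height_one A B hΔ
  set Hm : ℝ := max |(A : ℝ)| |(B : ℝ)| with hHm
  have hgap' : ∀ i, i ≠ 0 → (n i : ℝ) ≤ (1 - min η 1) * n 0 := fun i hi => by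
    refine (hgap i hi).trans (mul_le_mul_of_nonneg_right ?_ (by positivity))
    have := min_le_left η 1
    linarith
  have h5 : |(x : ℝ)| ≤ K * Hm ^ (22 + ε / 2) := by
    have hp : 0 ≤ Hm ^ (22 + ε / 2) := by positivity
    rcases hor with hx | hy
    · refine (h1 A B x y q a n hΔ hcur hq hqQ ha ha0 hgap' hx).trans
        (mul_le_mul_of_nonneg_right ?_ hp)
      exact (le_max_left _ _).trans (le_max_right _ _)
    · refine (h2 A B x y q a n hΔ hcur hq hqQ ha ha0 hgap' hy).trans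
        (mul_le_mul_of_nonneg_right ?_ hp)
      exact (le_max_right _ _).trans (le_max_right _ _)
  have h6 := ordinate A B x y ε K hε hK1 hΔ hcur h5
  refine ⟨?_, h6⟩
  refine h5.trans (mul_le_mul ?_ (Real.rpow_le_rpow_of_exponent_le hH1 (by linarith))
    (by positivity) (by positivity))
  nlinarith

end Pool.Agent.Results.MP_a1107e_nt.OneSparseCoordinate
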